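import Pool.Agent.N418.CZ.Stm

/-!
# Project CZ, part WP: a trace monomial is a product of traces of words
-/

set_option autoImplicit false

namespace Pool.Agent.N78.CZ

open Pool.Agent.N418.CZ

variable {k : ℕ}

/-- the conclusion of the statement WP -/
def W (k : ℕ) (ι : Type) : Prop := ∀ [Fintype ι] [DecidableEq ι] (σ : Equiv.Perm ι),
  ∃ L : List (List ι), (L.flatten : Multiset ι) = (Finset.univ : Finset ι).val ∧
    ∀ x : ι → Mk k, tr σ x = (L.map fun l => ((l.map x).prod).trace).prod

theorem W_equiv {α β : Type} (e : α ≃ β) (h : W k α) : W k β := by
  intro _ _ σ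
  classical
  have : Fintype α := Fintype.ofEquiv β e.symm
  obtain ⟨L, hL1, hL2⟩ := h (e.symm.permCongr σ)
  refine ⟨L.map (List.map e), ?_, fun x => ?_⟩
  · rw [← List.map_flatten, ← Multiset.map_coe, hL1]
    ext b
    rw [Multiset.count_eq_one_of_mem Finset.univ.nodup (Finset.mem_univ b)]
    have h1 : Multiset.count (e (e.symm b)) (Multiset.map e (Finset.univ : Finset α).val) =
        Multiset.count (e.symm b) (Finset.univ : Finset α).val :=
      Multiset.count_map_eq_count' e _ e.injective _
    rw [Equiv.apply_symm_apply] at h1
    rw [h1]
    exact Multiset.count_eq_one_of_mem Finset.univ.nodup (Finset.mem_univ _)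
  · have h1 := hL2 (fun a => x (e a))
    have h2 : tr σ x = tr (e.symm.permCongr σ) (fun a => x (e a)) := by
      unfold tr
      refine Fintype.sum_equiv (e.arrowCongr (Equiv.refl _)).symm _ _ fun i => ?_
      refine (Fintype.prod_equiv e _ _ fun a => ?_).symm
      simp [Equiv.arrowCongr]
    rw [h2, h1, List.map_map]
    congr 1
    refine List.map_congr_left fun l _ => ?_
    simp [Function.comp_def]

theorem W_empty : W k PEmpty := by
  intro _ _ σ
  refine ⟨[], ?_, fun x => ?_⟩
  · ext a; exact a.elim
  · simp [tr]

section opt

variable {κ : Type} [Fintype κ] [DecidableEq κ]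

/-- extension of an index function -/
def ex (m : Fin k) (i : κ → Fin k) : Option κ → Fin k := fun o => o.elim m i

theorem tr_option (σ : Equiv.Perm (Option κ)) (x : Option κ → Mk k) :
    tr σ x = ∑ p : Fin k × (κ → Fin k), x none p.1 (ex p.1 p.2 (σ none)) *
      ∏ c : κ, x (some c) (p.2 c) (ex p.1 p.2 (σ (some c))) := by
  unfold tr
  refine Fintype.sum_equiv (Equiv.piOptionEquivProd (β := fun _ => Fin k)) _ _ fun i => ?_
  rw [Fintype.prod_option]
  have h : ∀ o, ex (i none) (fun c => i (some c)) o = i o := by
    intro o
    cases o <;> rfl
  change _ = x none (i none) (ex (i none) (fun c => i (some c)) (σ none)) *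
      ∏ c : κ, x (some c) (i (some c)) (ex (i none) (fun c => i (some c)) (σ (some c)))
  rw [h]
  congr 1
  exact Finset.prod_congr rfl fun c _ => by rw [h]

theorem case_fix (σ : Equiv.Perm (Option κ)) (h0 : σ none = none) (x : Option κ → Mk k) :
    tr σ x = (x none).trace * tr (Equiv.removeNone σ) (fun c => x (some c)) := by
  rw [tr_option, Fintype.sum_prod_type, Matrix.trace, Finset.sum_mul]
  refine Finset.sum_congr rfl fun m _ => ?_
  unfold tr
  rw [Finset.mul_sum]
  refine Finset.sum_congr rfl fun i _ => ?_
  rw [h0]
  congr 1
  refine Finset.prod_congr rfl fun c _ => ?_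
  have h1 : ∃ c', σ (some c) = some c' := by
    rcases h : σ (some c) with _ | c'
    · rw [← h0] at h
      exact absurd (σ.injective h) (by simp)
    · exact ⟨c', rfl⟩
  rw [← Equiv.removeNone_some σ h1]
  rfl

/-- the involution of the index set -/
def inv (b : κ) : (Fin k × (κ → Fin k)) ≃ (Fin k × (κ → Fin k)) where
  toFun p := (p.2 b, Function.update p.2 b p.1)
  invFun p := (p.2 b, Function.update p.2 b p.1)
  left_inv p := by simp
  right_inv p := by simp

theorem case_some (σ : Equiv.Perm (Option κ)) (b : κ) (h0 : σ none = some b)
    (x : Option κ → Mk k) :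
    tr σ x = tr (Equiv.removeNone σ) (fun c => if c = b then x none * x (some b)
      else x (some c)) := by
  have hr : ∀ (m : Fin k) (j : κ → Fin k) (c : κ),
      ex (j b) (Function.update j b m) (σ (some c)) = j (Equiv.removeNone σ c) := by
    intro m j c
    rcases h : σ (some c) with _ | d
    · have h1 := Equiv.removeNone_none σ h
      rw [h0] at h1
      rw [Option.some_injective _ h1]
      rfl
    · have h1 := Equiv.removeNone_some σ ⟨d, h⟩
      rw [h] at h1
      rw [Option.some_injective _ h1]
      have hd : d ≠ b := by
        rintro rfl
        rw [← h0] at h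
        exact absurd (σ.injective h) (by simp)
      change Function.update j b m d = j d
      rw [Function.update_of_ne hd]
  rw [tr_option, ← Equiv.sum_comp (inv b)]
  unfold tr
  rw [Fintype.sum_prod_type, Finset.sum_comm]
  refine Finset.sum_congr rfl fun j _ => ?_
  have e1 : ∀ m : Fin k, x none ((inv b (m, j)).1)
      (ex (inv b (m, j)).1 (inv b (m, j)).2 (σ none)) *
      ∏ c : κ, x (some c) ((inv b (m, j)).2 c) (ex (inv b (m, j)).1 (inv b (m, j)).2
        (σ (some c))) =
      x none (j b) m * x (some b) m (j (Equiv.removeNone σ b)) *
        ∏ c ∈ Finset.univ.erase b, x (some c) (j c) (j (Equiv.removeNone σ c)) := by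
    intro m
    change x none (j b) (ex (j b) (Function.update j b m) (σ none)) *
      ∏ c : κ, x (some c) (Function.update j b m c) (ex (j b) (Function.update j b m)
        (σ (some c))) = _
    rw [h0, ← Finset.mul_prod_erase Finset.univ _ (Finset.mem_univ b), hr]
    have e2 : ex (j b) (Function.update j b m) (some b) = m := by
      change Function.update j b m b = m
      simp
    rw [e2, Function.update_self, mul_assoc]
    congr 2
    refine Finset.prod_congr rfl fun c hc => ?_
    rw [hr, Function.update_of_ne (Finset.ne_of_mem_erase hc)]
  rw [Finset.sum_congr rfl fun m _ => e1 m, ← Finset.sum_mul,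
    ← Finset.mul_prod_erase Finset.univ _ (Finset.mem_univ b)]
  congr 1
  · have hb : (fun c => if c = b then x none * x (some b) else x (some c)) b =
        x none * x (some b) := if_pos rfl
    refine Eq.trans ?_ (congrFun (congrFun hb.symm _) _)
    rw [Matrix.mul_apply]
  · refine Finset.prod_congr rfl fun c hc => ?_
    have hb : (fun c => if c = b then x none * x (some b) else x (some c)) c =
        x (some c) := if_neg (Finset.ne_of_mem_erase hc)
    exact (congrFun (congrFun hb.symm _) _)

theorem W_option' (h : W k κ) (σ : Equiv.Perm (Option κ)) :
    ∃ L : List (List (Option κ)),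
      (L.flatten : Multiset (Option κ)) = (Finset.univ : Finset (Option κ)).val ∧
    ∀ x : Option κ → Mk k, tr σ x = (L.map fun l => ((l.map x).prod).trace).prod := by
  obtain ⟨L, hL1, hL2⟩ := h (Equiv.removeNone σ)
  rcases h0 : σ none with _ | b
  · refine ⟨[none] :: L.map (List.map some), ?_, fun x => ?_⟩
    · rw [List.flatten_cons, ← List.map_flatten, List.singleton_append, ← Multiset.cons_coe,
        ← Multiset.map_coe, hL1]
      ext o
      rw [Multiset.count_eq_one_of_mem Finset.univ.nodup (Finset.mem_univ o)]
      cases o with
      | none =>
        rw [Multiset.count_cons_self, Multiset.count_eq_zero_of_notMem]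
        simp
      | some a =>
        rw [Multiset.count_cons_of_ne (by simp), Multiset.count_map_eq_count' _ _
          (Option.some_injective _)]
        exact Multiset.count_eq_one_of_mem Finset.univ.nodup (Finset.mem_univ _)
    · rw [case_fix σ h0, hL2, List.map_cons, List.prod_cons, List.map_map]
      congr 1
      · simp
      · congr 1
        refine List.map_congr_left fun l _ => ?_
        simp [Function.comp_def]
  · set g : κ → List (Option κ) := fun c => if c = b then [none, some b] else [some c] with hg
    refine ⟨L.map (fun l => l.flatMap g), ?_, fun x => ?_⟩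
    · have h1 : (L.map (fun l => l.flatMap g)).flatten = L.flatten.flatMap g := by
        clear hL1 hL2
        induction L with
        | nil => rfl
        | cons a L ih => rw [List.map_cons, List.flatten_cons, ih, List.flatten_cons,
            List.flatMap_append]
      rw [h1, ← Multiset.coe_bind, hL1]
      ext o
      rw [Multiset.count_eq_one_of_mem Finset.univ.nodup (Finset.mem_univ o),
        Multiset.count_bind]
      change ∑ c : κ, Multiset.count o (g c : Multiset (Option κ)) = 1
      cases o with
      | none =>
        have h2 : ∀ c, Multiset.count none (g c : Multiset (Option κ)) =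
            if c = b then 1 else 0 := by
          intro c
          by_cases hc : c = b
          · simp [hg, hc]
          · simp [hg, hc]
        rw [Finset.sum_congr rfl fun c _ => h2 c]
        simp
      | some a =>
        have h2 : ∀ c, Multiset.count (some a) (g c : Multiset (Option κ)) =
            if c = a then 1 else 0 := by
          intro c
          by_cases hc : c = b
          · subst hc
            by_cases ha : c = a
            · simp [hg, ha]
            · simp [hg, ha]
          · by_cases ha : c = a
            · subst ha
              simp [hg, hc]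
            · simp only [hg, hc, ha, if_false]
              simpa using fun h : a = c => ha h.symm
        rw [Finset.sum_congr rfl fun c _ => h2 c]
        simp
    · rw [case_some σ b h0, hL2, List.map_map]
      congr 1
      refine List.map_congr_left fun l hl => ?_
      clear hl
      change _ = (((l.flatMap g).map x).prod).trace
      congr 1
      induction l with
      | nil => rfl
      | cons a l ih =>
        rw [List.map_cons, List.prod_cons, List.flatMap_cons, List.map_append, List.prod_append,
          ← ih]
        congr 1
        by_cases ha : a = b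
        · simp [hg, ha]
        · simp [hg, ha]

end opt

theorem W_option {κ : Type} [Fintype κ] (h : W k κ) : W k (Option κ) := by
  classical
  intro i1 i2 σ
  have := W_option' h σ
  convert this

theorem t_WP : S_WP := by
  intro k ι _ _ σ
  exact Finite.induction_empty_option (P := W k) (fun e h => W_equiv e h) W_empty
    (fun h => W_option h) ι σ

end Pool.Agent.N78.CZ
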